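import Pool.Agent.Helper49.KR.St

/-!
# Project KR: module CNT, constant formats for long windows
-/

set_option autoImplicit false

namespace Pool.Agent.Helper48.KR

open Finset Filter Topology Module
open Pool.Agent.Helper49.KX Pool.Agent.Helper49.KR

theorem vis_ge {V : Set X0} {θ : ℝ} {G : ℕ}
    (hG : ∀ t : X0, ∃ i : ℕ, i < G ∧ (rot θ ^ (i : ℤ) : X0 ≃ₜ X0) t ∈ V) (r M K : ℕ)
    (hr : 2 * M + K * G ≤ r) (t : X0) : K ≤ (vis (rot θ) r M V t).card := by
  classical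
  have h1 : ∀ a : Fin K, ∃ i : ℕ, i < G ∧
      (rot θ ^ (i : ℤ) : X0 ≃ₜ X0) ((rot θ ^ ((M + a * G : ℕ) : ℤ) : X0 ≃ₜ X0) t) ∈ V :=
    fun a => hG _
  choose f hf1 hf2 using h1
  have hb : ∀ a : Fin K, ((a : ℕ) + 1) * G ≤ K * G := fun a => Nat.mul_le_mul_right G a.2
  have hlt : ∀ a : Fin K, M + a * G + f a < r := by
    intro a
    have h2 := hb a
    have h3 := hf1 a
    rw [add_mul, one_mul] at h2
    omega
  let F : Fin K → Fin r := fun a => ⟨M + a * G + f a, hlt a⟩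
  have hinj : Function.Injective F := by
    intro a a' haa
    have h2 : M + a * G + f a = M + a' * G + f a' := congrArg Fin.val haa
    have h3 := hf1 a
    have h4 := hf1 a'
    apply Fin.ext
    rcases lt_trichotomy (a : ℕ) a' with h | h | h
    · have h5 : ((a : ℕ) + 1) * G ≤ a' * G := Nat.mul_le_mul_right G h
      rw [add_mul, one_mul] at h5
      omega
    · exact h
    · have h5 : ((a' : ℕ) + 1) * G ≤ a * G := Nat.mul_le_mul_right G h
      rw [add_mul, one_mul] at h5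
      omega
  have hmem : ∀ a ∈ (univ : Finset (Fin K)), F a ∈ vis (rot θ) r M V t := by
    intro a _
    unfold vis SB
    rw [mem_filter, mem_filter]
    refine ⟨mem_univ _, ?_, ?_⟩
    · rintro ⟨_, h | h⟩
      · have : M + a * G + f a < M := h
        omega
      · have h2 : r ≤ M + a * G + f a + M := h
        have h3 := hb a
        have h4 := hf1 a
        rw [add_mul, one_mul] at h3
        omega
    · have h2 := hf2 a
      rw [rot_zpow, rot_zpow] at h2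
      rw [rot_zpow]
      have h3 : t + (((((M + a * G : ℕ) : ℤ) : ℝ) * θ : ℝ) : X0) +
          (((((f a : ℕ) : ℤ) : ℝ) * θ : ℝ) : X0) =
          t + ((((((F a : Fin r) : ℕ) : ℤ) : ℝ) * θ : ℝ) : X0) := by
        rw [add_assoc, ← AddCircle.coe_add]
        congr 2
        have h4 : ((F a : Fin r) : ℕ) = M + a * G + f a := rfl
        rw [h4]
        push_cast
        ring
      rwa [h3] at h2
  have := Finset.card_le_card_of_injOn F hmem hinj.injOn
  rwa [Finset.card_univ, Fintype.card_fin] at this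

theorem hCNT : StCnt := by
  intro hSpl hLsc hAvg hEqd hDsm hCmm hEvm hAlg hDeg hSyn hMnm θ hθ g s0 V N hF hg hs0
  obtain ⟨G, hG⟩ := hSyn X0 (rot θ) (hMnm θ hθ) V hF.op hF.ne
  have hG1 : ∀ t : X0, ∃ i : ℕ, i < G ∧ (rot θ ^ (i : ℤ) : X0 ≃ₜ X0) t ∈ V := fun t => (hG t).1
  have D : ∀ (r : ℕ) (s : ℝ), _ := fun r s => hDsm hCmm hEvm hAlg hDeg θ g s0 V N r s hF hg hs0
  have hun : Deg (un - g) N := (hDeg θ g g N N hg hg).2
  -- ranks
  have rk1 : ∀ (r : ℕ) (s : ℝ),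
      finrank ℂ (im (cw θ r g s) (SB r N)) = rk θ r g N s := fun r s => rfl
  have rk2 : ∀ (r : ℕ) (s : ℝ),
      finrank ℂ (im (1 - cw θ r g s) (SB r N)) = rk θ r (un - g) N s := by
    intro r s
    rw [(D r s).2.2.2.2]
    rfl
  have hv1 : ∀ (r : ℕ) (s : ℝ), (vis (rot θ) r (4 * N) V (s : X0)).card ≤ rk θ r g N s := by
    intro r s
    exact (D r s).2.2.1.trans (Submodule.finrank_mono (D r s).1)
  have hv2 : ∀ (r : ℕ) (s : ℝ), (vis (rot θ) r (4 * N) V (s : X0)).card ≤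
      rk θ r (un - g) N s := by
    intro r s
    rw [← rk2]
    exact (D r s).2.2.1.trans (Submodule.finrank_mono (D r s).2.1)
  have hsum : ∀ (r : ℕ) (s : ℝ), r + (vis (rot θ) r (4 * N) V (s : X0)).card ≤
      rk θ r g N s + rk θ r (un - g) N s + 2 * N := by
    intro r s
    have h1 := (D r s).2.2.2.1
    have h2 := card_SB r N
    have h3 := Submodule.finrank_sup_add_finrank_inf_eq (im (cw θ r g s) (SB r N))
      (im (1 - cw θ r g s) (SB r N))
    have h4 := (D r s).2.2.1.trans (Submodule.finrank_mono (le_inf (D r s).1 (D r s).2.1))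
    rw [rk1, rk2] at h3
    omega
  -- the length l
  obtain ⟨ℓ, hℓ⟩ : ∃ ℓ, ℓ = 8 * N + (2 * N + 1) * G + 1 := ⟨_, rfl⟩
  have hℓ1 : 1 ≤ ℓ := by omega
  have hL : ∀ s, ℓ + 1 ≤ rk θ ℓ g N s + rk θ ℓ (un - g) N s := by
    intro s
    have h1 := hsum ℓ s
    have h2 := vis_ge hG1 ℓ (4 * N) (2 * N + 1) (by omega) (s : X0)
    omega
  have hirr : Irrational ((ℓ : ℝ) * θ) := by
    rw [mul_comm]
    exact hθ.mul_natCast (by omega)
  obtain ⟨n0, hn0⟩ := hAvg hEqd ((ℓ : ℝ) * θ) hirr (fun s => rk θ ℓ g N s)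
    (fun s => rk θ ℓ (un - g) N s) (ℓ + 1) (hLsc θ g N ℓ).1 (hLsc θ (un - g) N ℓ).1
    (hLsc θ g N ℓ).2 (hLsc θ (un - g) N ℓ).2 hL (1 / 4) (by norm_num)
  refine ⟨max (ℓ * max n0 (2 * ℓ)) (max (8 * N + 2 * N * G) (4 * N)), fun r hr => ?_⟩
  have hr1 : ℓ * max n0 (2 * ℓ) ≤ r := (le_max_left _ _).trans hr
  have hr2 : 8 * N + 2 * N * G ≤ r := ((le_max_left _ _).trans (le_max_right _ _)).trans hr
  have hr3 : 4 * N ≤ r := ((le_max_right _ _).trans (le_max_right _ _)).trans hr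
  have hv : ∀ s : ℝ, 2 * N ≤ (vis (rot θ) r (4 * N) V (s : X0)).card := fun s =>
    vis_ge hG1 r (4 * N) (2 * N) (by omega) (s : X0)
  -- the sum of two ranks
  have hpair : ∀ s s' : ℝ, r ≤ rk θ r g N s + rk θ r (un - g) N s' := by
    intro s s'
    obtain ⟨n, hn⟩ : ∃ n, n = r / ℓ := ⟨_, rfl⟩
    have hnl : n * ℓ ≤ r := by rw [hn]; exact Nat.div_mul_le_self r ℓ
    have hnr : r < (n + 1) * ℓ := by
      rw [hn, mul_comm]
      exact Nat.lt_mul_div_succ r hℓ1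
    have hn1 : max n0 (2 * ℓ) ≤ n := by
      rw [hn, Nat.le_div_iff_mul_le hℓ1, mul_comm]
      exact hr1
    have hn2 : n0 ≤ n := (le_max_left _ _).trans hn1
    have hn3 : 2 * ℓ ≤ n := (le_max_right _ _).trans hn1
    have h1 := hn0 n hn2 s s'
    have h2 := hSpl θ g N ℓ n r s hg hnl
    have h3 := hSpl θ (un - g) N ℓ n r s' hun hnl
    have h4 : ((∑ l ∈ Finset.range n, rk θ ℓ g N (s + (l : ℝ) * ((ℓ : ℝ) * θ)) : ℕ) : ℝ) ≤
        rk θ r g N s := by exact_mod_cast h2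
    have h5 : ((∑ l ∈ Finset.range n, rk θ ℓ (un - g) N (s' + (l : ℝ) * ((ℓ : ℝ) * θ)) : ℕ) : ℝ)
        ≤ rk θ r (un - g) N s' := by exact_mod_cast h3
    have h6 : (r : ℝ) < (n + 1) * ℓ := by exact_mod_cast hnr
    have h7 : 2 * (ℓ : ℝ) ≤ n := by exact_mod_cast hn3
    have h8 : (r : ℝ) ≤ rk θ r g N s + rk θ r (un - g) N s' := by
      have h9 : (((ℓ + 1 : ℕ) : ℝ) - 1 / 4) * n ≤
          (rk θ r g N s : ℝ) + rk θ r (un - g) N s' := by
        refine h1.trans ?_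
        linarith
      push_cast at h9
      nlinarith
    exact_mod_cast h8
  -- minima
  obtain ⟨s1, hs1⟩ : ∃ s1, ∀ s, rk θ r g N s1 ≤ rk θ r g N s := by
    obtain ⟨m, ⟨s1, hs1⟩, hm⟩ := WellFounded.has_min (wellFounded_lt (α := ℕ))
      (Set.range fun s => rk θ r g N s) ⟨_, 0, rfl⟩
    refine ⟨s1, fun s => ?_⟩
    have := hm (rk θ r g N s) ⟨s, rfl⟩
    have h2 : rk θ r g N s1 = m := hs1
    omega
  obtain ⟨s2, hs2⟩ : ∃ s2, ∀ s, rk θ r (un - g) N s2 ≤ rk θ r (un - g) N s := by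
    obtain ⟨m, ⟨s1, hs1⟩, hm⟩ := WellFounded.has_min (wellFounded_lt (α := ℕ))
      (Set.range fun s => rk θ r (un - g) N s) ⟨_, 0, rfl⟩
    refine ⟨s1, fun s => ?_⟩
    have := hm (rk θ r (un - g) N s) ⟨s, rfl⟩
    have h2 : rk θ r (un - g) N s1 = m := hs1
    omega
  have hA0 : 2 * N ≤ rk θ r g N s1 := (hv s1).trans (hv1 r s1)
  have hB0 : 2 * N ≤ rk θ r (un - g) N s2 := (hv s2).trans (hv2 r s2)
  have hAB := hpair s1 s2
  refine ⟨max (2 * N) (r - rk θ r (un - g) N s2), r - max (2 * N) (r - rk θ r (un - g) N s2),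
    by omega, by omega, by omega, fun s => ?_, fun s => ?_, fun s => ?_⟩
  · rw [rk1]
    have := hs1 s
    omega
  · rw [rk2]
    have := hs2 s
    omega
  · exact (hv s).trans (D r s).2.2.1

end Pool.Agent.Helper48.KR
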